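import Mathlib

set_option autoImplicit false

namespace Pool.Agent.Results.MP_d4aced_co.CoprimeDecimations

/-- The infinite word `w` (indexed from `0`) is squarefree: it has no factor `x x` with `x` nonempty,
that is, there are no position `i` and no length `p > 0` such that the blocks
`w i, …, w (i+p-1)` and `w (i+p), …, w (i+2p-1)` are equal. -/
def IsSquarefreeWord {A : Type} (w : ℕ → A) : Prop :=
  ¬ ∃ i p : ℕ, 0 < p ∧ ∀ t < p, w (i + t) = w (i + p + t)

/-- The `k`-decimation `(w (k n))_{n ≥ 0}` of the infinite word `w`. -/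
def decimation {A : Type} (k : ℕ) (w : ℕ → A) : ℕ → A := fun n => w (k * n)

/-! ### Bounded Boolean quantifiers that the kernel evaluates quickly -/

/-- `P` holds for all numbers below `n`. -/
def allLt : ℕ → (ℕ → Bool) → Bool
  | 0, _ => true
  | n + 1, P => P n && allLt n P

/-- `P` holds for some number below `n`. -/
def anyLt : ℕ → (ℕ → Bool) → Bool
  | 0, _ => false
  | n + 1, P => P n || anyLt n P

theorem allLt_spec {n : ℕ} {P : ℕ → Bool} (h : allLt n P = true) : ∀ i < n, P i = true := by
  induction n with
  | zero => intro i hi; omega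
  | succ n ih =>
    intro i hi
    simp only [allLt, Bool.and_eq_true] at h
    rcases Nat.lt_succ_iff_lt_or_eq.mp hi with hlt | heq
    · exact ih h.2 i hlt
    · subst heq; exact h.1

theorem anyLt_spec {n : ℕ} {P : ℕ → Bool} (h : anyLt n P = true) : ∃ i < n, P i = true := by
  induction n with
  | zero => simp [anyLt] at h
  | succ n ih =>
    simp only [anyLt, Bool.or_eq_true] at h
    rcases h with h | h
    · exact ⟨n, Nat.lt_succ_self n, h⟩
    · obtain ⟨i, hi, hP⟩ := ih h
      exact ⟨i, Nat.lt_succ_of_lt hi, hP⟩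

/-- The `i`-th letter of the finite word coded in base `4` by `c`. -/
def letter (c i : ℕ) : ℕ := Nat.mod (Nat.shiftRight c (Nat.mul 2 i)) 4

/-- The three letters `0, x₁, x₂` as a function. -/
def tri (x1 x2 j : ℕ) : ℕ := cond (Nat.beq j 0) 0 (cond (Nat.beq j 1) x1 x2)

/-- Check of short squares in the images of the words `0 x₁ x₂`
(written with the raw operations on natural numbers, to speed up the kernel's evaluation). -/
def chkShort (q L c x1 x2 : ℕ) : Bool :=
  allLt q fun s => allLt L fun p => (Nat.beq p 0) || anyLt p fun t =>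
    !(Nat.beq
      (Nat.mod (Nat.add (letter c (Nat.mod (Nat.add s t) q)) (tri x1 x2 (Nat.div (Nat.add s t) q))) 3)
      (Nat.mod (Nat.add (letter c (Nat.mod (Nat.add (Nat.add s p) t) q))
        (tri x1 x2 (Nat.div (Nat.add (Nat.add s p) t) q))) 3))

/-- Check that two long factors of an image can only agree when their positions agree mod `q`. -/
def chkSync (q L c : ℕ) : Bool :=
  allLt q fun s => allLt q fun r => (Nat.beq r 0) || anyLt (Nat.sub L 1) fun t =>
    !(Nat.beq (Nat.mod (Nat.add s t) q) (Nat.sub q 1)) &&
      (!(Nat.beq (Nat.mod (Nat.add (Nat.add s r) t) q) (Nat.sub q 1)) &&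
        !(Nat.beq
          (Nat.mod (Nat.add (letter c (Nat.add (Nat.mod (Nat.add s t) q) 1))
            (letter c (Nat.mod (Nat.add (Nat.add s r) t) q))) 3)
          (Nat.mod (Nat.add (letter c (Nat.mod (Nat.add s t) q))
            (letter c (Nat.add (Nat.mod (Nat.add (Nat.add s r) t) q) 1))) 3)))

/-- All the checks for the cyclic `q`-uniform morphism coded by `c`. -/
def chk (q L c : ℕ) : Bool :=
  chkShort q L c 1 0 && (chkShort q L c 1 2 && (chkShort q L c 2 0 && (chkShort q L c 2 1 &&
    chkSync q L c)))

/-- The image of the word `w` under the cyclic `q`-uniform morphism coded by `c`. -/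
def img (q c : ℕ) (w : ℕ → ℕ) : ℕ → ℕ := fun n => (letter c (n % q) + w (n / q)) % 3

theorem not_beq {a b : ℕ} (h : (!(Nat.beq a b)) = true) : a ≠ b := by
  intro hab
  subst hab
  rw [Nat.beq_refl] at h
  exact absurd h (by decide)

theorem beq_false_of_ne {a b : ℕ} (h : a ≠ b) : Nat.beq a b = false := by
  rcases hb : Nat.beq a b with _ | _
  · rfl
  · exact absurd (Nat.eq_of_beq_eq_true hb) h

theorem chkShort_spec {q L c x1 x2 : ℕ} (h : chkShort q L c x1 x2 = true) :
    ∀ s < q, ∀ p < L, 0 < p → ∃ t < p,
      (letter c ((s + t) % q) + tri x1 x2 ((s + t) / q)) % 3 ≠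
      (letter c ((s + p + t) % q) + tri x1 x2 ((s + p + t) / q)) % 3 := by
  intro s hs p hp hp0
  have h1 := allLt_spec (allLt_spec h s hs) p hp
  rw [beq_false_of_ne (by omega : p ≠ 0), Bool.false_or] at h1
  obtain ⟨t, ht, h2⟩ := anyLt_spec h1
  exact ⟨t, ht, not_beq h2⟩

theorem chkSync_spec {q L c : ℕ} (h : chkSync q L c = true) :
    ∀ s < q, ∀ r < q, r ≠ 0 → ∃ t < L - 1, (s + t) % q ≠ q - 1 ∧ (s + r + t) % q ≠ q - 1 ∧
      (letter c ((s + t) % q + 1) + letter c ((s + r + t) % q)) % 3 ≠
        (letter c ((s + t) % q) + letter c ((s + r + t) % q + 1)) % 3 := by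
  intro s hs r hr hr0
  have h1 := allLt_spec (allLt_spec h s hs) r hr
  rw [beq_false_of_ne hr0, Bool.false_or] at h1
  obtain ⟨t, ht, h2⟩ := anyLt_spec h1
  rw [Bool.and_eq_true, Bool.and_eq_true] at h2
  exact ⟨t, ht, not_beq h2.1, not_beq h2.2.1, not_beq h2.2.2⟩

/-- The key step: a square of period `p` in the image comes from a square of period `p / q`. -/
theorem step {q L c : ℕ} (hq : 0 < q) (hL : L ≤ q + 1) (hc : chk q L c = true)
    {w : ℕ → ℕ} (hw3 : ∀ n, w n < 3) (hne : ∀ n, w n ≠ w (n + 1))
    {i p : ℕ} (hp : 0 < p) (hsq : ∀ t < p, img q c w (i + t) = img q c w (i + p + t)) :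
    ∃ p', p = q * p' ∧ ∀ t < p', w (i / q + t) = w (i / q + p' + t) := by
  simp only [chk, Bool.and_eq_true] at hc
  obtain ⟨hc1, hc2, hc3, hc4, hc5⟩ := hc
  obtain ⟨b, s, hs, hi⟩ : ∃ b s, s < q ∧ i = q * b + s :=
    ⟨i / q, i % q, Nat.mod_lt _ hq, (Nat.div_add_mod i q).symm⟩
  have hmod : ∀ u, (i + u) % q = (s + u) % q := by
    intro u; rw [hi, add_assoc, Nat.mul_add_mod]
  have hdiv : ∀ u, (i + u) / q = b + (s + u) / q := by
    intro u; rw [hi, add_assoc, Nat.mul_add_div hq]
  have hib : i / q = b := by
    have := hdiv 0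
    rw [add_zero, add_zero, Nat.div_eq_of_lt hs] at this
    simpa using this
  simp only [img] at hsq
  by_cases hpL : p < L
  · exfalso
    -- short squares
    have hshort : ∃ x1 x2, chkShort q L c x1 x2 = true ∧
        (∀ j, j ≤ 2 → (tri x1 x2 j + w b) % 3 = w (b + j) % 3) := by
      have h0 := hw3 b
      have h1 := hw3 (b + 1)
      have h2 := hw3 (b + 2)
      have n0 := hne b
      have n1 : w (b + 1) ≠ w (b + 2) := hne (b + 1)
      have key : ∀ x1 x2, (x1 + w b) % 3 = w (b + 1) → (x2 + w b) % 3 = w (b + 2) →
          ∀ j, j ≤ 2 → (tri x1 x2 j + w b) % 3 = w (b + j) % 3 := by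
        intro x1 x2 e1 e2 j hj
        have : j = 0 ∨ j = 1 ∨ j = 2 := by omega
        have t0 : tri x1 x2 0 = 0 := rfl
        have t1 : tri x1 x2 1 = x1 := rfl
        have t2 : tri x1 x2 2 = x2 := rfl
        rcases this with rfl | rfl | rfl
        · rw [t0, add_zero, zero_add]
        · rw [t1]; omega
        · rw [t2]; omega
      have hx : ((1 + w b) % 3 = w (b + 1) ∧ (0 + w b) % 3 = w (b + 2)) ∨
          ((1 + w b) % 3 = w (b + 1) ∧ (2 + w b) % 3 = w (b + 2)) ∨
          ((2 + w b) % 3 = w (b + 1) ∧ (0 + w b) % 3 = w (b + 2)) ∨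
          ((2 + w b) % 3 = w (b + 1) ∧ (1 + w b) % 3 = w (b + 2)) := by omega
      rcases hx with ⟨e1, e2⟩ | ⟨e1, e2⟩ | ⟨e1, e2⟩ | ⟨e1, e2⟩
      · exact ⟨1, 0, hc1, key _ _ e1 e2⟩
      · exact ⟨1, 2, hc2, key _ _ e1 e2⟩
      · exact ⟨2, 0, hc3, key _ _ e1 e2⟩
      · exact ⟨2, 1, hc4, key _ _ e1 e2⟩
    obtain ⟨x1, x2, hch, hx⟩ := hshort
    obtain ⟨t, ht, hneq⟩ := chkShort_spec hch s hs p hpL hp
    apply hneq
    have e := hsq t ht
    rw [add_assoc i p t, hmod, hmod, hdiv, hdiv, ← add_assoc s p t] at e
    have j1 : (s + t) / q ≤ 2 := by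
      have : (s + t) / q < 3 := by
        rw [Nat.div_lt_iff_lt_mul hq]; omega
      omega
    have j2 : (s + p + t) / q ≤ 2 := by
      have : (s + p + t) / q < 3 := by
        rw [Nat.div_lt_iff_lt_mul hq]; omega
      omega
    have a1 := hx _ j1
    have a2 := hx _ j2
    omega
  · -- long squares
    have hr : p % q = 0 := by
      by_contra hr0
      obtain ⟨t, ht, m1, m2, hneq⟩ := chkSync_spec hc5 s hs (p % q) (Nat.mod_lt _ hq) hr0
      apply hneq
      have e1 := hsq t (by omega)
      have e2 := hsq (t + 1) (by omega)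
      have key : ∀ v, v % q ≠ q - 1 → (v + 1) % q = v % q + 1 ∧ (v + 1) / q = v / q := by
        intro v hv
        have hlt : v % q < q := Nat.mod_lt _ hq
        have hv' : v % q + 1 < q := by omega
        have hd := Nat.div_add_mod v q
        constructor
        · conv_lhs => rw [← hd, add_assoc, Nat.mul_add_mod]
          exact Nat.mod_eq_of_lt hv'
        · conv_lhs => rw [← hd, add_assoc, Nat.mul_add_div hq, Nat.div_eq_of_lt hv']
          simp
      have m1' : (i + t) % q ≠ q - 1 := by rw [hmod]; exact m1
      have hm2 : (i + p + t) % q = (s + p % q + t) % q := by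
        rw [add_assoc, hmod, ← add_assoc]
        conv_lhs => rw [Nat.add_mod, Nat.add_mod s p]
        conv_rhs => rw [Nat.add_mod, Nat.add_mod s (p % q)]
        simp
      have m2' : (i + p + t) % q ≠ q - 1 := by rw [hm2]; exact m2
      have k1 := key _ m1'
      have k2 := key _ m2'
      rw [show i + (t + 1) = i + t + 1 from by ring, show i + p + (t + 1) = i + p + t + 1 from by ring,
        k1.1, k1.2, k2.1, k2.2] at e2
      rw [hmod, hm2] at e1 e2
      generalize w ((i + t) / q) = A at e1 e2
      generalize w ((i + p + t) / q) = B at e1 e2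
      omega
    obtain ⟨p', hp'⟩ : ∃ p', p = q * p' := Nat.dvd_of_mod_eq_zero hr
    refine ⟨p', hp', ?_⟩
    intro t ht
    rw [hib]
    have htp : q * t < p := by rw [hp']; exact Nat.mul_lt_mul_of_pos_left ht hq
    have e := hsq (q * t) htp
    rw [hp', add_assoc i, hmod, hmod, hdiv, hdiv, ← Nat.mul_add, Nat.add_mul_mod_self_left,
      Nat.add_mul_mod_self_left, Nat.add_mul_div_left _ _ hq, Nat.add_mul_div_left _ _ hq,
      Nat.div_eq_of_lt hs, Nat.mod_eq_of_lt hs] at e
    have h1 := hw3 (b + t)
    have h2 := hw3 (b + p' + t)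
    rw [show b + (0 + t) = b + t from by ring, show b + (0 + (p' + t)) = b + p' + t from by ring] at e
    omega

/-- A cyclic uniform morphism passing the checks maps squarefree words to squarefree words. -/
theorem img_squarefree {q L c : ℕ} (hq : 0 < q) (hL : L ≤ q + 1) (hc : chk q L c = true)
    {w : ℕ → ℕ} (hw3 : ∀ n, w n < 3) (hw : IsSquarefreeWord w) :
    IsSquarefreeWord (img q c w) := by
  have hne : ∀ n, w n ≠ w (n + 1) := by
    intro n hn
    apply hw
    refine ⟨n, 1, Nat.one_pos, ?_⟩
    intro t ht
    have : t = 0 := by omega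
    subst this
    simpa using hn
  rintro ⟨i, p, hp, hsq⟩
  obtain ⟨p', hp', h⟩ := step hq hL hc hw3 hne hp hsq
  apply hw
  refine ⟨i / q, p', ?_, h⟩
  rcases Nat.eq_zero_or_pos p' with h0 | h0
  · subst h0; omega
  · exact h0

/-! ### An infinite squarefree word: a fixed point of a cyclic `13`-uniform morphism -/

/-- The code of the word `0212012102120`. -/
def c13 : ℕ := 9987224

/-- The fixed point of the cyclic `13`-uniform morphism with `0 ↦ 0212012102120`. -/
def base (n : ℕ) : ℕ :=
  if h : n = 0 then 0 else
    have : n / 13 < n := Nat.div_lt_self (Nat.pos_of_ne_zero h) (by norm_num)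
    (letter c13 (n % 13) + base (n / 13)) % 3

theorem base_lt (n : ℕ) : base n < 3 := by
  unfold base
  split_ifs
  · norm_num
  · exact Nat.mod_lt _ (by norm_num)

theorem base_eq (n : ℕ) : base n = img 13 c13 base n := by
  by_cases h : n = 0
  · subst h
    have h0 : base 0 = 0 := by unfold base; simp
    simp only [img, Nat.zero_mod, Nat.zero_div, h0]
    decide
  · conv_lhs => unfold base
    simp only [h, dite_false, img]

theorem chk13 : chk 13 13 c13 = true := by decide +kernel

theorem letter13_ne (s : ℕ) (hs : s < 12) : letter c13 s % 3 ≠ letter c13 (s + 1) % 3 := by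
  interval_cases s <;> decide

theorem base_ne (n : ℕ) : base n ≠ base (n + 1) := by
  induction n using Nat.strong_induction_on with
  | _ n ih =>
    rw [base_eq n, base_eq (n + 1)]
    simp only [img]
    by_cases h : n % 13 = 12
    · have h1 : (n + 1) % 13 = 0 := by omega
      have h2 : (n + 1) / 13 = n / 13 + 1 := by omega
      rw [h, h1, h2]
      have h3 : letter c13 12 = 0 := by decide
      have h4 : letter c13 0 = 0 := by decide
      rw [h3, h4]
      have := ih (n / 13) (by omega)
      have l1 := base_lt (n / 13)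
      have l2 := base_lt (n / 13 + 1)
      omega
    · have h1 : (n + 1) % 13 = n % 13 + 1 := by omega
      have h2 : (n + 1) / 13 = n / 13 := by omega
      rw [h1, h2]
      have := letter13_ne (n % 13) (by omega)
      omega

theorem base_squarefree : IsSquarefreeWord base := by
  have main : ∀ p, 0 < p → ∀ i, ¬ ∀ t < p, base (i + t) = base (i + p + t) := by
    intro p
    induction p using Nat.strong_induction_on with
    | _ p ih =>
      intro hp i hsq
      have hsq' : ∀ t < p, img 13 c13 base (i + t) = img 13 c13 base (i + p + t) := by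
        intro t ht
        rw [← base_eq, ← base_eq]
        exact hsq t ht
      obtain ⟨p', hp', h⟩ := step (by norm_num) (by norm_num) chk13 base_lt base_ne hp hsq'
      exact ih p' (by omega) (by omega) (i / 13) h
  rintro ⟨i, p, hp, h⟩
  exact main p hp i h

/-! ### The word and its decimations -/

/-- The code of the word `0121021202102010212012101201020121012021012102120102012101202102010212010`
`201210120212012102010212021020121012021020102120210120102012101202101210212021020102120121012010201210`
of length `175`. -/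
def c175 : ℕ :=
  225134317631922884499198316125581478022324183276313180386213975570168583179927954507428440312365603919972

/-- The code of the `5`-decimation of the previous word. -/
def c35 : ℕ := 167770455491868117272

/-- The code of the `7`-decimation of the previous word. -/
def c25 : ℕ := 167436653978776

theorem chk25 : chk 25 20 c25 = true := by decide +kernel

theorem chk35 : chk 35 20 c35 = true := by decide +kernel

theorem chk175 : chk 175 53 c175 = true := by decide +kernel

theorem letters35 : ∀ j < 35, letter c175 (5 * j) = letter c35 j := by decide +kernel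

theorem letters25 : ∀ j < 25, letter c175 (7 * j) = letter c25 j := by decide +kernel

theorem dec5 (n : ℕ) : img 175 c175 base (5 * n) = img 35 c35 base n := by
  simp only [img]
  have h1 : (5 * n) % 175 = 5 * (n % 35) := by omega
  have h2 : (5 * n) / 175 = n / 35 := by omega
  rw [h1, h2, letters35 _ (Nat.mod_lt _ (by norm_num))]

theorem dec7 (n : ℕ) : img 175 c175 base (7 * n) = img 25 c25 base n := by
  simp only [img]
  have h1 : (7 * n) % 175 = 7 * (n % 25) := by omega
  have h2 : (7 * n) / 175 = n / 25 := by omega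
  rw [h1, h2, letters25 _ (Nat.mod_lt _ (by norm_num))]

/-- The infinite ternary word. -/
def word (n : ℕ) : Fin 3 := ⟨img 175 c175 base n, Nat.mod_lt _ (by norm_num)⟩

theorem squarefree_of_val {w : ℕ → Fin 3} (h : IsSquarefreeWord fun n => (w n).val) :
    IsSquarefreeWord w := by
  rintro ⟨i, p, hp, hsq⟩
  exact h ⟨i, p, hp, fun t ht => congrArg Fin.val (hsq t ht)⟩

/-- There are relatively prime integers `k, ℓ ≥ 2` and an infinite squarefree ternary word whose
`k`-decimation and `ℓ`-decimation are both squarefree; in fact `k = 5` and `ℓ = 7` work. -/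
theorem result :
    ∃ k l : ℕ, 2 ≤ k ∧ 2 ≤ l ∧ Nat.Coprime k l ∧
      ∃ w : ℕ → Fin 3, IsSquarefreeWord w ∧ IsSquarefreeWord (decimation k w) ∧
        IsSquarefreeWord (decimation l w) := by
  refine ⟨5, 7, by norm_num, by norm_num, by norm_num, word, ?_, ?_, ?_⟩
  · apply squarefree_of_val
    exact img_squarefree (by norm_num) (by norm_num) chk175 base_lt base_squarefree
  · apply squarefree_of_val
    have : (fun n => (decimation 5 word n).val) = img 35 c35 base := by
      funext n; exact dec5 n
    rw [this]
    exact img_squarefree (by norm_num) (by norm_num) chk35 base_lt base_squarefree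
  · apply squarefree_of_val
    have : (fun n => (decimation 7 word n).val) = img 25 c25 base := by
      funext n; exact dec7 n
    rw [this]
    exact img_squarefree (by norm_num) (by norm_num) chk25 base_lt base_squarefree

end Pool.Agent.Results.MP_d4aced_co.CoprimeDecimations
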